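import Pool.Agent.Helper97.Nag.Goals1

/-!
Packet NAG1-TRP: the parameter, empty case.
-/

set_option autoImplicit false

noncomputable section

namespace Pool.Agent.Helper35.Nag.TRP

open Pool.Agent.Helper97.Nag

/-- generic position of an irrational parameter -/
theorem generic {r : ℝ} (hr : Irrational r) (d : ℕ) (j : ℕ) (hj : 3 * j < d) (n : ℤ) :
    (r - 9) * ((d : ℝ) / 3 - j) ≠ n := by
  intro h
  have hj' : (3 : ℝ) * j < d := by exact_mod_cast hj
  have hv : (d : ℝ) - 3 * j ≠ 0 := by linarith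
  apply hr
  refine ⟨9 + 3 * (n : ℚ) / ((d : ℚ) - 3 * j), ?_⟩
  push_cast
  field_simp
  nlinarith [h]

theorem t : S_TRP := by
  intro b d M hb hd
  rcases Nat.eq_zero_or_pos d with rfl | hpos
  · refine ⟨b, Nat.cast_nonneg b, ?_, ?_, ?_⟩
    · have : (0 : ℝ) ≤ b := Nat.cast_nonneg b
      nlinarith
    · rw [Nat.cast_zero, mul_zero]
      positivity
    · intro j hj
      omega
  · have hdp : (0 : ℝ) < d := by exact_mod_cast hpos
    have hb' : (9 : ℝ) ≤ b := by exact_mod_cast hb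
    have hd' : (b : ℝ) * (d : ℝ) ^ 2 < ((∑ l, M l : ℕ) : ℝ) ^ 2 := by exact_mod_cast hd
    have hs : Real.sqrt b * d < ((∑ l, M l : ℕ) : ℝ) := by
      have h1 : (Real.sqrt b * d) ^ 2 < ((∑ l, M l : ℕ) : ℝ) ^ 2 := by
        rw [mul_pow, Real.sq_sqrt (by linarith)]
        exact hd'
      exact lt_of_pow_lt_pow_left₀ 2 (Nat.cast_nonneg _) h1
    have h3 : 3 * Real.sqrt b < 3 * ((∑ l, M l : ℕ) : ℝ) / d := by
      rw [lt_div_iff₀ hdp]
      linarith
    obtain ⟨r, hr, h4, h5⟩ := exists_irrational_btwn h3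
    have h6 : (3 : ℝ) ≤ Real.sqrt b := by
      apply Real.le_sqrt_of_sq_le
      linarith
    refine ⟨r - 9, by linarith, ?_, ?_, fun j hj n => generic hr d j hj n⟩
    · have h7 : (3 * Real.sqrt b) ^ 2 ≤ r ^ 2 :=
        pow_le_pow_left₀ (by positivity) h4.le 2
      rw [mul_pow, Real.sq_sqrt (by linarith)] at h7
      have h8 : (r - 9 + 9) ^ 2 = r ^ 2 := by ring
      rw [h8]
      linarith
    · rw [lt_div_iff₀ hdp] at h5
      have h8 : (r - 9 + 9) * (d : ℝ) = r * d := by ring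
      rw [h8]
      exact h5.le

end Pool.Agent.Helper35.Nag.TRP
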