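import Pool.Agent.Helper97.Nag.Goals1

/-!
Packet NAG1-TRN: the count of the long rows of the triangle.
-/

set_option autoImplicit false

noncomputable section

namespace Pool.Agent.Helper35.Nag.TRN

open Pool.Agent.Helper97.Nag

/-- integers of an open interval of length at most `B` -/
theorem card_le {T : Finset ℤ} {a c : ℝ} {B : ℕ} (hT : ∀ X ∈ T, a < (X : ℝ) ∧ (X : ℝ) < c)
    (hB : c - a ≤ B) : T.card ≤ B := by
  have hsub : T ⊆ Finset.Ico (⌊a⌋ + 1) (⌊a⌋ + 1 + B) := by
    intro X hX
    obtain ⟨h1, h2⟩ := hT X hX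
    rw [Finset.mem_Ico]
    constructor
    · have : ⌊a⌋ < X := by
        rw [Int.floor_lt]
        exact h1
      omega
    · have h3 : ((X - B : ℤ) : ℝ) < a := by
        push_cast
        linarith
      have h4 : X - B ≤ ⌊a⌋ := by
        rw [Int.le_floor]
        exact h3.le
      omega
  calc T.card ≤ (Finset.Ico (⌊a⌋ + 1) (⌊a⌋ + 1 + (B : ℤ))).card := Finset.card_le_card hsub
    _ = B := by
      rw [Int.card_Ico]
      simp

/-- a finite set of integers with at least `σ + 1` elements has two elements at distance at least `σ` -/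
theorem spread {J : Finset ℤ} {σ : ℕ} (hJ : σ + 1 ≤ J.card) :
    ∃ x ∈ J, ∃ y ∈ J, x + σ ≤ y := by
  have hne : J.Nonempty := by
    rw [← Finset.card_pos]
    omega
  refine ⟨J.min' hne, J.min'_mem hne, J.max' hne, J.max'_mem hne, ?_⟩
  have hsub : J ⊆ Finset.Icc (J.min' hne) (J.max' hne) := by
    intro x hx
    rw [Finset.mem_Icc]
    exact ⟨J.min'_le x hx, J.le_max' x hx⟩
  have h1 := Finset.card_le_card hsub
  rw [Int.card_Icc] at h1
  omega

theorem t : S_TRN := by
  intro b d M rho h0 h9 hd hM S hS s hs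
  have hd' : (rho + 9) * ((d : ℝ) / 3) ≤ ((∑ l, M l : ℕ) : ℝ) := by linarith
  obtain rfl | h2 := hs.eq_or_lt
  · -- one point in the row
    have hB : ∑ l, (M l + 1 - 1) = ∑ l, M l := by simp
    rw [hB]
    have hsub : lnv S 1 ⊆ Finset.Ico (0 : ℤ) ((∑ l, M l : ℕ) : ℤ) := by
      intro X hX
      unfold lnv at hX
      rw [Finset.mem_filter, Finset.mem_image] at hX
      obtain ⟨⟨q, hq, rfl⟩, -⟩ := hX
      obtain ⟨j, hj, hI⟩ := hS q hq
      rw [Finset.mem_Ico]
      rcases hI with ⟨hjd, h1, h3⟩ | ⟨hjd, h1⟩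
      · have hjd' : (3 : ℝ) * j < d := by exact_mod_cast hjd
        have hv : 0 < (d : ℝ) / 3 - j := by linarith
        constructor
        · have h4 : (0 : ℝ) < (q.2 : ℝ) := lt_of_le_of_lt (mul_nonneg h0 hv.le) h1
          have h5 : (0 : ℤ) < q.2 := by exact_mod_cast h4
          exact h5.le
        · have h4 : (q.2 : ℝ) < ((∑ l, M l : ℕ) : ℝ) := by
            have h5 : (rho + 9) * ((d : ℝ) / 3 - j) ≤ (rho + 9) * ((d : ℝ) / 3) := by
              apply mul_le_mul_of_nonneg_left _ (by linarith)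
              have : (0 : ℝ) ≤ j := Nat.cast_nonneg j
              linarith
            linarith
          exact_mod_cast h4
      · rw [h1]
        constructor
        · exact le_refl _
        · exact_mod_cast hM
    calc (lnv S 1).card ≤ (Finset.Ico (0 : ℤ) ((∑ l, M l : ℕ) : ℤ)).card :=
          Finset.card_le_card hsub
      _ = ∑ l, M l := by
        rw [Int.card_Ico, sub_zero, Int.toNat_natCast]
  · -- at least two points
    obtain ⟨σ, rfl⟩ : ∃ σ : ℕ, s = σ + 1 := ⟨s - 1, by omega⟩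
    have hσ : 1 ≤ σ := by omega
    have hB : ((∑ l, M l : ℕ) : ℝ) - b * σ ≤ ((∑ l, (M l + 1 - (σ + 1)) : ℕ) : ℝ) := by
      rw [Nat.cast_sum, Nat.cast_sum]
      have h3 : ∀ l : Fin b, ((M l : ℝ) - σ) ≤ ((M l + 1 - (σ + 1) : ℕ) : ℝ) := by
        intro l
        have h4 : (M l : ℤ) - σ ≤ ((M l + 1 - (σ + 1) : ℕ) : ℤ) := by omega
        exact_mod_cast h4
      calc ∑ l, (M l : ℝ) - b * σ = ∑ l : Fin b, ((M l : ℝ) - σ) := by
            rw [Finset.sum_sub_distrib]
            simp
        _ ≤ ∑ l, ((M l + 1 - (σ + 1) : ℕ) : ℝ) := Finset.sum_le_sum fun l _ => h3 l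
    apply card_le (a := σ * rho * (rho + 9) / 9) (c := (rho + 9) * ((d : ℝ) / 3 - σ))
    · intro X hX
      unfold lnv at hX
      rw [Finset.mem_filter, Finset.mem_image] at hX
      obtain ⟨-, hcard⟩ := hX
      -- the first coordinates
      have hinj : Set.InjOn (Prod.fst : ℤ × ℤ → ℤ) (S.filter fun q => q.2 = X) := by
        intro p hp q hq hpq
        rw [Finset.mem_coe, Finset.mem_filter] at hp hq
        exact Prod.ext hpq (hp.2.trans hq.2.symm)
      have hcard' : σ + 1 ≤ ((S.filter fun q => q.2 = X).image Prod.fst).card := by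
        rw [Finset.card_image_of_injOn hinj]
        exact hcard
      obtain ⟨x, hx, y, hy, hxy⟩ := spread hcard'
      rw [Finset.mem_image] at hx hy
      obtain ⟨p, hp, rfl⟩ := hx
      obtain ⟨q, hq, rfl⟩ := hy
      rw [Finset.mem_filter] at hp hq
      obtain ⟨hpS, hpX⟩ := hp
      obtain ⟨hqS, hqX⟩ := hq
      obtain ⟨i, hi, hIp⟩ := hS p hpS
      obtain ⟨j, hj, hIq⟩ := hS q hqS
      rw [hpX] at hIp
      rw [hqX] at hIq
      rw [hi, hj] at hxy
      have hxy' : (i : ℝ) + σ ≤ j := by exact_mod_cast hxy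
      have hσ' : (1 : ℝ) ≤ σ := by exact_mod_cast hσ
      -- the second point cannot be beyond the apex
      have hjd : (3 : ℝ) * j ≤ d := by
        rcases hIq with ⟨h3, -, -⟩ | ⟨h3, -⟩
        · exact_mod_cast h3.le
        · exact_mod_cast h3.le
      have hp1 : rho * ((d : ℝ) / 3 - i) < X := by
        rcases hIp with ⟨h3, h4, -⟩ | ⟨h3, -⟩
        · exact h4
        · exfalso
          have h4 : (3 : ℝ) * i = d := by exact_mod_cast h3
          linarith
      have hX : 0 < (X : ℝ) := by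
        refine lt_of_le_of_lt (mul_nonneg h0 ?_) hp1
        linarith
      have hq1 : (X : ℝ) < (rho + 9) * ((d : ℝ) / 3 - j) := by
        rcases hIq with ⟨-, -, h4⟩ | ⟨-, h4⟩
        · exact h4
        · exfalso
          rw [h4] at hX
          simp at hX
      constructor
      · -- lower bound
        have e1 : (rho + 9) * (rho * ((d : ℝ) / 3 - i)) < (rho + 9) * X :=
          mul_lt_mul_of_pos_left hp1 (by linarith)
        have e2 : rho * (X : ℝ) ≤ rho * ((rho + 9) * ((d : ℝ) / 3 - j)) :=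
          mul_le_mul_of_nonneg_left hq1.le h0
        have e3 : rho * (rho + 9) * ((i : ℝ) + σ) ≤ rho * (rho + 9) * j :=
          mul_le_mul_of_nonneg_left hxy' (mul_nonneg h0 (by linarith))
        rw [div_lt_iff₀ (by norm_num)]
        nlinarith
      · refine lt_of_lt_of_le hq1 ?_
        apply mul_le_mul_of_nonneg_left _ (by linarith)
        have : (0 : ℝ) ≤ i := Nat.cast_nonneg i
        linarith
    · refine le_trans ?_ hB
      have hσ' : (0 : ℝ) ≤ σ := Nat.cast_nonneg σ
      have e1 : (σ : ℝ) * (9 * b) ≤ σ * (rho + 9) ^ 2 := mul_le_mul_of_nonneg_left h9 hσ'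
      have e2 : (rho + 9) * ((d : ℝ) / 3 - σ) - σ * rho * (rho + 9) / 9 =
          (rho + 9) * ((d : ℝ) / 3) - σ * (rho + 9) ^ 2 / 9 := by ring
      rw [e2]
      linarith

end Pool.Agent.Helper35.Nag.TRN
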