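import Pool.Agent.Helper35.Nag.TRP

/-!
Packet NAG1-TRQ: the parameter, regular case.
-/

set_option autoImplicit false

noncomputable section

namespace Pool.Agent.Helper35.Nag.TRQ

open Pool.Agent.Helper97.Nag

theorem t : S_TRQ := by
  intro b d M hd h3 hM
  have hdp : (0 : ℝ) < (d : ℝ) + 3 := by positivity
  -- an upper bound for all the upper bounds
  obtain ⟨c, hc, hcl⟩ : ∃ c : ℝ, max 9 (3 * (∑ l, ((M l : ℝ) + 1)) / ((d : ℝ) + 3)) < c ∧
      ∀ l, c * ((M l : ℝ) + 1) ≤ 3 * ((d : ℝ) + 3) := by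
    rcases isEmpty_or_nonempty (Fin b) with he | hne
    · exact ⟨max 9 (3 * (∑ l, ((M l : ℝ) + 1)) / ((d : ℝ) + 3)) + 1, by linarith,
        fun l => he.elim l⟩
    · obtain ⟨l0, hl0⟩ := Finite.exists_max M
      have hp : (0 : ℝ) < (M l0 : ℝ) + 1 := by positivity
      refine ⟨3 * ((d : ℝ) + 3) / ((M l0 : ℝ) + 1), ?_, ?_⟩
      · rw [max_lt_iff]
        constructor
        · rw [lt_div_iff₀ hp]
          have h1 : (3 : ℝ) * (M l0 : ℝ) < d := by exact_mod_cast h3 l0
          linarith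
        · rw [div_lt_div_iff₀ hdp hp]
          have h1 : ((M l0 : ℝ) + 1) * (∑ i, ((M i : ℝ) + 1)) < ((d : ℝ) + 3) ^ 2 := by
            have := hM l0
            exact_mod_cast this
          nlinarith
      · intro l
        have h1 : (M l : ℝ) ≤ (M l0 : ℝ) := by exact_mod_cast hl0 l
        rw [div_mul_eq_mul_div, div_le_iff₀ hp]
        apply mul_le_mul_of_nonneg_left _ (by positivity)
        linarith
  obtain ⟨r, hr, h4, h5⟩ := exists_irrational_btwn hc
  rw [max_lt_iff] at h4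
  obtain ⟨h6, h7⟩ := h4
  refine ⟨r - 9, by linarith, ?_, ?_, fun j hj n => TRP.generic hr d j hj n⟩
  · intro l
    have h8 : (r - 9 + 9) * ((M l : ℝ) + 1) = r * ((M l : ℝ) + 1) := by ring
    rw [h8]
    refine le_trans ?_ (hcl l)
    apply mul_le_mul_of_nonneg_right h5.le
    positivity
  · rw [div_lt_iff₀ hdp] at h7
    have h8 : (r - 9 + 9) * ((d : ℝ) + 3) = r * ((d : ℝ) + 3) := by ring
    rw [h8]
    exact h7.le

end Pool.Agent.Helper35.Nag.TRQ
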